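import Pool.Agent.KS6_26.N.CampLines

/-!
MP_464c42_nt, Q1, over function fields: the height inequality for ALL algebraic points (of
unbounded degree) of the generic C-pairs in projective space, the multiplicities being large, with
exactly the exceptional lines removed.

Let `F` be a function field of one variable over an algebraically closed field `k` of characteristic
`0`, the function field of a curve, and `H_a`, for `a` in a finite set `A`, forms of degrees `d_a > 0`
in `n + 1` variables over `F` whose coefficients are, for all `a` together, algebraically independent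
over a subfield `F0` of `F` that is finitely generated over a subfield `k0` of `k`. (For `k`
uncountable and `k0` countable, this holds for the very general forms over `k`, and for very general
families of forms, which are not isotrivial.) The intersections of the hypersurfaces `H_a = 0` give a
stratification of projective space: for a subset `Z` of `A` let `V_Z` be the complete intersection
`H_a = 0`, `a ∈ Z`, and, for multiplicities `q_b` in `{1, 2, …} ∪ {∞}`, let
`Δ_Z = ∑_{b ∉ Z} (1 - 1 / q_b) (H_b = 0)`, a boundary of `V_Z`. For a point `x` of projective space let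
`Z(x)` be the set of the `a` with `H_a(x) = 0`: so `x` is a point of `V_Z`, not in the support of
`Δ_Z`, for `Z = Z(x)`. A line is exceptional for `Z` if it is contained in `V_Z` and meets the union of
the other hypersurfaces `H_b = 0`, `b ∉ Z`, in at most two points. For all multiplicities the
restriction of `Δ_Z` to an exceptional line gives a C-pair that is not of general type.

There is a constant `c`, which depends only on `n` and the degrees, such that for all `F`, all `H_a` as
above, all multiplicities `q_b` and all finite sets `T0` of places of `F` there is a constant `B` with: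

(1) for all finite extensions `L` of `F` and all points `x` of projective space over `L` such that
    `3 n + 3 ≤ 2 ∑ d_a + |Z|` for `Z = Z(x)`:
    `(1 - c ∑_{b ∉ Z} d_b / q_b) h(x) ≤ c (|Bad(x)| + 2 g(L) - 2) + B [L : F]`,
    or `x` lies on a line that is exceptional for `Z` (over a given algebraically closed field `Ω` that
    contains `F`, for instance its algebraic closure). Here `Bad(x)` is the set of the places of `L`,
    not over `T0`, at which `x` is not a point of the C-pair `(V_Z, Δ_Z)`: it meets some `H_b = 0`,
    `b ∉ Z`, with a positive multiplicity less than `q_b`;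
(2) there are no exceptional lines for `Z` if moreover `2 n + 1 ≤ ∑ d_a + |Z|`, or if `Z = A` and
    `2 n ≤ ∑ d_a + |A| + 1`;
(3) every closed subvariety `Y` of projective space over `Ω` of positive dimension
    `w ≥ 2 n + 2 - (∑ d_a + |Z|)`, `Z` the set of the `a` with `H_a = 0` on `Y`, with
    `3 n + 3 ≤ 2 ∑ d_a + |Z|`, has a proper closed subset `G = 0` outside of which the inequality of
    (1) holds for all algebraic points of `V_Z`, in particular for those of `Y`.

So, if the multiplicities are larger than a constant that depends only on `n` and the degrees (with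
`∑ d_b / q_b ≤ 1 / (2 c)`), the points `x` over `L` of the C-pair `(V_Z, Δ_Z)` outside of `T0` have
height `h(x) ≤ 2 c (2 g(L) - 2) + 2 B [L : F]`, if they are not on the exceptional lines, which do not
depend on the multiplicities. For example, let `H` be one very general form of degree
`d ≥ (3 n + 3) / 2` and `D` the hypersurface `H = 0`: this holds for the pairs
`(ℙ^n, (1 - 1 / q) D)` with `q` large, and there are no exceptional lines for `d ≥ 2 n + 1`. (3) with
`Y = V_Z` says that the function field analogue of Q1 holds for `(V_Z, Δ_Z)`: for `|Z| < n` the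
condition `3 n + 3 ≤ 2 ∑ d_a + |Z|` implies `∑ d_a ≥ n + 2` and the condition on the dimension
`n - |Z|`, the canonical class of the C-pair is `∑_a d_a - ∑_b d_b / q_b - n - 1` times a hyperplane
section, and so it is of general type if the multiplicities are large.

Here `pht k x = h(x)` is the height of `x` with respect to `O(1)` and `L`, minus the sum over all
places of `L` of the minimum of the orders of the coordinates; it is `[L : F]` times the height
relative to `F`. And `canDeg k L` is `2 g(L) - 2`. In (3), `K` is the function field of `Y`, or a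
finite extension of it, and `y` is the generic point, in homogeneous coordinates; `coords Ω y` is the
field generated over `Ω` by the ratios of the coordinates.

The proof combines the height inequality for log pairs of the library (`Pool.Agent.Y741`:
derivations dual to the coefficients) for all strata with a bound of the number of the places of
high contact.
-/

set_option autoImplicit false

namespace Pool.Agent.Results.MP_464c42_nt.CPairsOffLines

open MvPolynomial FF Pool.Agent.W603.LV Pool.Agent.W603.PV Pool.Agent.W602.GT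
  LinearAlgebra.Projectivization

/-- The field `F0` is finitely generated over `k0`. -/
def FinGen (k0 F0 : Type) [Field k0] [Field F0] [Algebra k0 F0] : Prop :=
  ∃ S : Finset F0, IntermediateField.adjoin k0 (S : Set F0) = ⊤

/-- Forms of degrees `d a` whose coefficients are algebraically independent over `F0`. -/
def Generic {F A : Type} (F0 : Type) [Field F0] [Field F] [Algebra F0 F] {n : ℕ}
    (H : A → MvPolynomial (Fin (n + 1)) F) (d : A → ℕ) : Prop :=
  (∀ a, (H a).IsHomogeneous (d a)) ∧
    AlgebraicIndependent F0 fun p : (a : A) × {I : Fin (n + 1) →₀ ℕ // I.degree = d a} =>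
      (H p.1).coeff p.2.1

/-- The forms over a larger field. -/
noncomputable def ext {F A : Type} [Field F] {n : ℕ} (H : A → MvPolynomial (Fin (n + 1)) F)
    (Ω : Type) [Field Ω] [Algebra F Ω] (a : A) : MvPolynomial (Fin (n + 1)) Ω :=
  map (algebraMap F Ω) (H a)

/-- The places, not over `T0`, at which `x` is not a point of the C-pair with the boundary
`∑ (1 - 1 / q b) (H b = 0)`, `b ∉ Z` (`q b = 0` denoting the multiplicity infinity): those at which,
for some `b ∉ Z`, the multiplicity `ord (H b (x)) - d b * min_j ord (x j)` of the intersection with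
`H b = 0` is positive and less than `q b`, or positive and `q b = 0`. -/
def Bad {k F L A : Type} [Field k] [Field F] [Field L] [Algebra k F] [Algebra k L] [Algebra F L]
    [IsScalarTower k F L] [IsAlgClosed k] [CharZero k] [IsFF k F] [IsFF k L] {n : ℕ}
    (H : A → MvPolynomial (Fin (n + 1)) F) (d q : A → ℕ) (T0 : Set (Place k F)) (Z : Finset A)
    (x : Fin (n + 1) → L) : Set (Place k L) :=
  {P | (∃ b, b ∉ Z ∧ d b * pord P x < P.ord (aeval x (H b)) ∧
    (q b = 0 ∨ P.ord (aeval x (H b)) < d b * pord P x + q b)) ∧ under F P ∉ T0}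

/-- The height inequality for the point `x` over `L`, with the boundary `∑ (1 - 1 / q b) (H b = 0)`,
`b ∉ Z`. The set `Bad` is finite. -/
def Ineq {k F L A : Type} [Field k] [Field F] [Field L] [Algebra k F] [Algebra k L] [Algebra F L]
    [IsScalarTower k F L] [IsAlgClosed k] [CharZero k] [IsFF k F] [IsFF k L] [Fintype A]
    [DecidableEq A] {n : ℕ} (H : A → MvPolynomial (Fin (n + 1)) F) (d q : A → ℕ)
    (T0 : Set (Place k F)) (c B : ℕ) (Z : Finset A) (x : Fin (n + 1) → L) : Prop :=
  (Bad H d q T0 Z x).Finite ∧
    (1 - c * ∑ b ∈ Zᶜ, (d b / q b : ℚ)) * (pht k x : ℚ) ≤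
      c * (((Bad H d q T0 Z x).ncard : ℚ) + canDeg k L) + B * Module.finrank F L

/-- A line, given by a vector space of dimension two, that is contained in `H a = 0` for all `a` in
`Z`. -/
def IsLine {K A : Type} [Field K] {n : ℕ} (H : A → MvPolynomial (Fin (n + 1)) K) (Z : Finset A)
    (W : Submodule K (Fin (n + 1) → K)) : Prop :=
  Module.finrank K W = 2 ∧ ∀ a ∈ Z, ∀ v ∈ W, eval v (H a) = 0

/-- The points of the line where `H b = 0` for some `b ∉ Z`. -/
def Boundary {K A : Type} [Field K] {n : ℕ} (H : A → MvPolynomial (Fin (n + 1)) K) (Z : Finset A)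
    (W : Submodule K (Fin (n + 1) → K)) : Set (ℙ K (Fin (n + 1) → K)) :=
  {p | p.rep ∈ W ∧ ∃ b, b ∉ Z ∧ eval p.rep (H b) = 0}

/-- A line that is exceptional for `Z`: it is contained in `H a = 0` for all `a` in `Z`, and meets the
union of the hypersurfaces `H b = 0`, `b ∉ Z`, in at most two points. -/
def Exceptional {K A : Type} [Field K] {n : ℕ} (H : A → MvPolynomial (Fin (n + 1)) K)
    (Z : Finset A) (W : Submodule K (Fin (n + 1) → K)) : Prop :=
  IsLine H Z W ∧ (Boundary H Z W).encard ≤ 2

/-- (1) The height inequality holds for all algebraic points that do not lie on exceptional lines over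
`Ω`. -/
def OffLines {k F A : Type} [Field k] [Field F] [Algebra k F] [IsAlgClosed k] [CharZero k]
    [IsFF k F] [Fintype A] [DecidableEq A] {n : ℕ} (H : A → MvPolynomial (Fin (n + 1)) F)
    (d q : A → ℕ) (T0 : Set (Place k F)) (c B : ℕ) (Ω : Type) [Field Ω] [Algebra F Ω] : Prop :=
  ∀ (L : Type) [Field L] [Algebra k L] [Algebra F L] [IsScalarTower k F L]
    [FiniteDimensional F L] [IsFF k L] (φ : L →ₐ[F] Ω) (x : Fin (n + 1) → L) (Z : Finset A),
    x ≠ 0 → (∀ a, a ∈ Z ↔ aeval x (H a) = 0) → 3 * n + 3 ≤ 2 * ∑ a, d a + Z.card →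
      Ineq H d q T0 c B Z x ∨ ∃ W, Exceptional (ext H Ω) Z W ∧ (fun j => φ (x j)) ∈ W

/-- The height inequality holds for all algebraic points of the complete intersection `H a = 0`,
`a ∈ Z`, that do not lie in `G = 0`. -/
def OffForm {k F A : Type} [Field k] [Field F] [Algebra k F] [IsAlgClosed k] [CharZero k]
    [IsFF k F] [Fintype A] [DecidableEq A] {n : ℕ} (H : A → MvPolynomial (Fin (n + 1)) F)
    (d q : A → ℕ) (T0 : Set (Place k F)) (c B : ℕ) (Z : Finset A) {Ω : Type} [Field Ω]
    [Algebra F Ω] (G : MvPolynomial (Fin (n + 1)) Ω) : Prop :=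
  ∀ (L : Type) [Field L] [Algebra k L] [Algebra F L] [IsScalarTower k F L]
    [FiniteDimensional F L] [IsFF k L] (φ : L →ₐ[F] Ω) (x : Fin (n + 1) → L), x ≠ 0 →
      (∀ a ∈ Z, aeval x (H a) = 0) → eval (fun j => φ (x j)) G ≠ 0 → Ineq H d q T0 c B Z x

/-- `K` is (a finite extension of) the function field, and `y` the generic point, of a subvariety of
dimension `w` of projective space over `Ω`, contained in `H a = 0` exactly for the `a ∈ Z`. -/
def Subvariety {Ω A K : Type} [Field Ω] [Field K] [Algebra Ω K] {n : ℕ}
    (H : A → MvPolynomial (Fin (n + 1)) Ω) (Z : Finset A) (w : ℕ) (y : Fin (n + 1) → K) : Prop :=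
  y ≠ 0 ∧ (∀ a, a ∈ Z ↔ aeval y (H a) = 0) ∧ Algebra.trdeg Ω K = w ∧
    Algebra.IsAlgebraic (coords Ω y) K

theorem result {n : ℕ} (hn : 1 ≤ n) {A : Type} [Fintype A] [DecidableEq A] {d : A → ℕ}
    (hd0 : ∀ a, 0 < d a) :
    ∃ c : ℕ, ∀ (k0 k F0 F : Type) [Field k0] [Field k] [Field F0] [Field F] [IsAlgClosed k]
      [CharZero k] [Algebra k0 k] [Algebra k F] [Algebra k0 F] [IsScalarTower k0 k F]
      [Algebra k0 F0] [Algebra F0 F] [IsScalarTower k0 F0 F] [IsFF k F], FinGen k0 F0 →
      ∀ (H : A → MvPolynomial (Fin (n + 1)) F), Generic F0 H d →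
      ∀ (q : A → ℕ) (T0 : Set (Place k F)), T0.Finite →
      ∃ B : ℕ, ∀ (Ω : Type) [Field Ω] [Algebra F Ω] [IsAlgClosed Ω],
        -- (1) the height inequality for the points that do not lie on exceptional lines
        OffLines H d q T0 c B Ω ∧
        -- (2) there are no exceptional lines in large degree
        (∀ Z : Finset A, 3 * n + 3 ≤ 2 * ∑ a, d a + Z.card → (2 * n + 1 ≤ ∑ a, d a + Z.card ∨
          (Z = Finset.univ ∧ 2 * n ≤ ∑ a, d a + Z.card + 1)) →
          ∀ W, ¬ Exceptional (ext H Ω) Z W) ∧
        -- (3) closed subvarieties of large dimension: the height inequality outside of a proper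
        -- closed subset
        ∀ (K : Type) [Field K] [Algebra Ω K] (w : ℕ) (y : Fin (n + 1) → K) (Z : Finset A),
          0 < w → 3 * n + 3 ≤ 2 * ∑ a, d a + Z.card → 2 * n + 2 ≤ ∑ a, d a + Z.card + w →
          Subvariety (ext H Ω) Z w y →
          ∃ (G : MvPolynomial (Fin (n + 1)) Ω) (e : ℕ),
            G.IsHomogeneous e ∧ aeval y G ≠ 0 ∧ OffForm H d q T0 c B Z G := by
  obtain ⟨c, hc⟩ := Pool.Agent.KS6_26.N.camp_lines hn hd0
  refine ⟨c, ?_⟩
  intro k0 k F0 F _ _ _ _ _ _ _ _ _ _ _ _ _ _ hfg H hH q T0 hT0
  obtain ⟨B, hB⟩ := hc k0 k F0 F hfg H hH.1 hH.2 q T0 hT0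
  refine ⟨B, fun Ω _ _ _ => ?_⟩
  obtain ⟨h1, h2, h3⟩ := hB Ω
  have hineq : ∀ (L : Type) [Field L] [Algebra k L] [Algebra F L] [IsScalarTower k F L]
      [FiniteDimensional F L] [IsFF k L] (x : Fin (n + 1) → L) (Z : Finset A),
      Pool.Agent.KS6_26.N.IneqZ H d q T0 c B Z x → Ineq H d q T0 c B Z x := by
    intro L _ _ _ _ _ _ x Z h
    have hset : {P | P ∈ Pool.Agent.KS6_26.N.BadT (k := k) Zᶜ d q x (fun b => aeval x (H b)) ∧
        under F P ∉ T0} = Bad H d q T0 Z x := by
      ext P
      unfold Pool.Agent.KS6_26.N.BadT Bad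
      simp only [Set.mem_ofPred_eq, Finset.mem_compl]
    obtain ⟨h4, h5⟩ := h
    rw [hset] at h5
    exact ⟨by rw [← hset]; exact h4.subset fun P hP => hP.1, h5⟩
  refine ⟨fun L _ _ _ _ _ _ φ x Z hx hZ hd => (h1 L φ x Z hx hZ hd).imp (hineq L x Z) id, h2, ?_⟩
  intro K _ _ w y Z hw hd hdw hy
  obtain ⟨G, e, h5, h6, h7⟩ := h3 K w y Z hw hd hdw hy.2.2.1 hy.1 hy.2.2.2 hy.2.1
  exact ⟨G, e, h5, h6, fun L _ _ _ _ _ _ φ x hx hxZ hG => hineq L x Z (h7 L φ x hx hxZ hG)⟩

end Pool.Agent.Results.MP_464c42_nt.CPairsOffLines
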