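import Pool.Agent.KS6_26.N.CampMain

/-!
MP_464c42_nt, Q1 over function fields, for all algebraic points: the Campana points on the C-pairs in
products of projective spaces which are generic in ANY family of C-pairs of low codimension.

Let `F` be a function field of one variable over an algebraically closed field `k` of characteristic
`0`, and let `F0` be a subfield of `F` which is finitely generated over a subfield `k0` of `k`. Let
`W` be the product of the projective spaces of dimensions `n_s`, for `s` in a finite set `S`, and let
`H_a`, for `a` in a finite set `A`, be multihomogeneous forms on `W` over `F`, not `0`, of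
multidegrees `(d_{a,s})_s`. They give a point of the product of the projective spaces of the forms of
these multidegrees. Suppose that the coordinates of this point, the ratios of the coefficients of each
of the `H_a`, generate a field of transcendence degree at least (the dimension of this product) `- δ`
over `F0`: the forms satisfy no system of algebraic conditions over `F0` of codimension larger than
`δ`. (If `k` is uncountable and `k0` is countable, the very general members over `k` of any family
of tuples of forms, defined over `F0`, not necessarily linear, of codimension at most `δ` in the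
family of all tuples, and its very general one-parameter subfamilies, which are not isotrivial, are
of this kind.)

Let `q_a`, for `a` in `A`, be multiplicities `1, 2, …` or infinity (written as `q_a = 0`), and for a
point `x = (x_s)_s` of `W` over a finite extension `L` of `F` let `Bad(x)` be the set of places of `L`
at which `x` meets some `H_a = 0` with `H_a(x) ≠ 0` with a positive multiplicity less than `q_a` (with
a positive multiplicity, if `q_a` is infinity): the places at which `x` is not a point of the C-pair
with the boundary `Δ = ∑ (1 - 1 / q_a) (H_a = 0)`.

(1) There is a constant `C` such that for all finite extensions `L` of `F` and all points `x` of `W`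
over `L`, if the closure of the point `x` over `F0` has dimension at most `r`, and its image in the
factor with index `s` has dimension at most `r_s`, then

`∑_s κ_s h(x_s) ≤ |Bad(x)| + 2 g(L) - 2 + C [L : F]`

for all rational `κ_s ≤ ∑_{H_a(x) = 0} (d_{a,s} + 1) + ∑_{H_a(x) ≠ 0} (1 - 1 / q_a) d_{a,s} - r - r_s - 1 - δ`.
Here `h(x_s)` is the height of `x_s` relative to `L` (`[L : F]` times its height relative to `F`).

(2) So for every finite set `T` of places of `F` there is a constant `C` such that
`∑_s κ_s h(x_s) ≤ 2 g(L) - 2 + C [L : F]` for the points `x` over all finite extensions `L` of `F`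
which are points of the C-pair (Campana points) outside of the places over `T`.

Now let `V` be any closed subset over `F0` of `W`, of dimension `m`, and with image of dimension `m_s`
in the factor with index `s`. Let `E` be a subset of `A`, let `X` be the intersection of `V` with
the hypersurfaces `H_a = 0`, `a ∈ E`, and let `Δ = ∑_{a ∉ E} (1 - 1 / q_a) (H_a = 0)`. If

`m + m_s + 1 + δ < ∑_{a ∈ E} (d_{a,s} + 1) + ∑_{a ∉ E} (1 - 1 / q_a) d_{a,s}` for all `s`,

then, for some `ε > 0`, `ε ∑_s h(x_s) ≤ 2 g(L) - 2 + C [L : F]` for all Campana points `x` of `(X, Δ)`
outside of the places over `T`, over all finite extensions `L`, which are not in the support of `Δ`,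
with a constant `C` which does not depend on `V`: the height of the Campana points over each field `L`
is bounded, with no exceptional set. If `V = W`, then the degrees of `K_X + Δ` are
`∑_{a ∈ E} d_{a,s} + ∑_{a ∉ E} (1 - 1 / q_a) d_{a,s} - n_s - 1`, and the condition says that they are
greater than `dim X + δ`. For example: `X` is the projective plane and the boundary consists of a very
general curve of degree `d` with the finite multiplicity `q`, if `(1 - 1 / q) d > 5`; or `X` is the
product of two projective lines and `Δ = (1 - 1 / q) D`, `D` a very general curve of bidegree
`(d, e)`, `(1 - 1 / q) min (d, e) > 4`; or `D` is a very general curve of degree `d` in the plane with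
`δ` nodes and `(1 - 1 / q) d > 5 + δ`.

The proof: there are derivations of `F` dual to a transcendence basis consisting of ratios of
coefficients. They extend to `L`; the loss in the direction of the curve is bounded by the
ramification, the loss in the other directions by a multiple of `[L : F]`. The vectors of the
derivatives of the point, of the logarithmic derivatives of the values of the forms that do not
vanish at `x`, and of the derivatives of the remaining (at most `δ`) coefficients have a nonzero minor,
all poles of which outside of finitely many places of `F` are simple, lie in the direction of the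
curve and over the points where `x` meets the boundary; there are at most
`(∑_s d_{a,s} h(x_s) + C [L : F]) / q_a` places at which `x` meets `H_a = 0` with multiplicity at least
`q_a`.

Definitions (`Pool/Agent/KS6_26/N/CampMain.lean`): `val x H`: the value of `H` at the point `x`;
`contact H e x P`: the multiplicity of the intersection of `x` with `H = 0`, of multidegree `e`, at `P`;
`Bad k H d q x`: the set `Bad(x)`; `orbDeg H d q x s`: the sum
`∑_{H_a(x) = 0} (d_{a,s} + 1) + ∑_{H_a(x) ≠ 0} (1 - 1 / q_a) d_{a,s}`; `Rat d I0`: the indices of the ratios
of coefficients. `MHom F e` (`Pool/Agent/KS6_26/D/Multi.lean`): `F` is multihomogeneous of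
multidegree `e`; `CoordsP F0 x`: the field generated over `F0` by the ratios of the coordinates of the
points `x s`, for all `s`; `coords F0 y`: the same for one point `y`. Of the library: `IsFF k F`: `F` is
finitely generated and of transcendence degree one over `k`; `Place k L`: the points of the smooth
projective curve with function field `L`; `under F P`: the place of `F` below `P`; `pord P x`: the
minimum of the orders at `P` of the coordinates; `pht k x`: minus the sum of `pord P x` over all
places, the height relative to `L`; `canDeg k L`: the degree `2 g(L) - 2` of the canonical divisor.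
-/

set_option autoImplicit false

namespace Pool.Agent.Results.MP_464c42_nt.FamiliesOfCPairs

open FF MvPolynomial Pool.Agent.W603.LV Pool.Agent.W603.PV
open Pool.Agent.W602.GT (coords)
open Pool.Agent.KS6_26.D (MHom CoordsP)
open Pool.Agent.KS6_26.N

theorem result {k0 k F0 F : Type} [Field k0] [Field k] [Field F0] [Field F] [IsAlgClosed k]
    [CharZero k] [Algebra k0 k] [Algebra k F] [Algebra k0 F] [IsScalarTower k0 k F]
    [Algebra k0 F0] [Algebra F0 F] [IsScalarTower k0 F0 F]
    -- `F` is a function field of one variable over `k`, `F0` is finitely generated over `k0`
    [IsFF k F] (hfg : ∃ S : Finset F0, IntermediateField.adjoin k0 (S : Set F0) = ⊤)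
    -- forms of multidegrees `d a` on the product of the projective spaces of dimensions `n s`; the
    -- ratios of their coefficients generate a field of transcendence degree at least the number of
    -- the ratios minus `δ`
    {S : Type} [Fintype S] {n : S → ℕ} {δ : ℕ} {A : Type} [Fintype A] (d : A → S → ℕ)
    (H : A → MvPolynomial (Σ s, Fin (n s + 1)) F) (hH : ∀ a, MHom (H a) (d a))
    (I0 : A → (Σ s, Fin (n s + 1)) →₀ ℕ) (hI0 : ∀ a, (H a).coeff (I0 a) ≠ 0)
    (htr : (Nat.card (Rat d I0) : Cardinal) ≤
      Algebra.trdeg F0 (IntermediateField.adjoin F0 (Set.range fun p : Rat d I0 =>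
        (H p.1.1).coeff p.1.2 / (H p.1.1).coeff (I0 p.1.1))) + δ)
    -- the multiplicities, `0` for infinity
    (q : A → ℕ) :
    (∃ C : ℕ, ∀ (L : Type) [Field L] [Algebra k L] [Algebra F L] [Algebra F0 L]
      [IsScalarTower k F L] [IsScalarTower F0 F L] [FiniteDimensional F L]
      (x : ∀ s, Fin (n s + 1) → L) (r : ℕ) (rs : S → ℕ) (κ : S → ℚ), (∀ s, x s ≠ 0) →
      Algebra.trdeg F0 (CoordsP F0 x) ≤ r → (∀ s, Algebra.trdeg F0 (coords F0 (x s)) ≤ rs s) →
      (∀ s, κ s + r + rs s + 1 + δ ≤ orbDeg H d q x s) →
      (Bad k H d q x).Finite ∧
      ∑ s, κ s * (pht k (x s) : ℚ) ≤
        ((Bad k H d q x).ncard : ℚ) + canDeg k L + C * Module.finrank F L) ∧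
    ∀ T : Set (Place k F), T.Finite →
    ∃ C : ℕ, ∀ (L : Type) [Field L] [Algebra k L] [Algebra F L] [Algebra F0 L]
      [IsScalarTower k F L] [IsScalarTower F0 F L] [FiniteDimensional F L] [IsFF k L]
      (x : ∀ s, Fin (n s + 1) → L) (r : ℕ) (rs : S → ℕ) (κ : S → ℚ), (∀ s, x s ≠ 0) →
      Algebra.trdeg F0 (CoordsP F0 x) ≤ r → (∀ s, Algebra.trdeg F0 (coords F0 (x s)) ≤ rs s) →
      (∀ s, κ s + r + rs s + 1 + δ ≤ orbDeg H d q x s) →
      (∀ P ∈ Bad k H d q x, under F P ∈ T) →
      ∑ s, κ s * (pht k (x s) : ℚ) ≤ canDeg k L + C * Module.finrank F L :=
  ⟨camp_main (k0 := k0) (k := k) hfg d H hH I0 hI0 htr q, fun _ hT =>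
    camp_points (k0 := k0) (k := k) hfg d H hH I0 hI0 htr q hT⟩

end Pool.Agent.Results.MP_464c42_nt.FamiliesOfCPairs
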