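import Pool.Agent.KS6_26.N.Camp2

/-!
MP_464c42_nt, Q1 over function fields, for all algebraic points: the Campana points on the preimages
of arbitrary C-pairs under generic maps, and on C-pairs whose boundary consists of generic members of
linear systems with base points.

Let `F` be a function field of one variable over an algebraically closed field `k` of characteristic
`0`, and let `F0` be a subfield of `F` which is finitely generated over a subfield `k0` of `k`. Let
`H_a`, for `a` in a finite set `A`, be forms of any degrees `d_a` in `n + 1` variables over `F`, whose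
coefficients are, for all `a` together, algebraically independent over `F0`. (For `k` uncountable and
`k0` countable, this holds for the very general forms over `k`, and for very general families of
forms, which are not isotrivial.) Let `T0` be a finite set of places of `F`. Multiplicities are
`1, 2, …` or infinity, infinity is written as `0`, and `1 / ∞ = 0`. The heights and canonical degrees
below are relative to the field `L` of definition of the point (`[L : F]` times those relative to `F`).

(1) The general inequality. The forms `H = (H_a)` are a section of the sum `E` of the line bundles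
`O(d_a)` on projective space. Let `φ_b`, for `b` in a finite set `Λ`, be polynomials over `F0` in the
coordinates `x` of projective space and the coordinates `u_a` in the fibres of `E`, homogeneous of
weights `w_b` if `u_a` has weight `d_a`: the equations of arbitrary divisors in the total space of
`E`; let `q_b` be multiplicities. There is a constant `C` such that for all finite extensions `L` of
`F`, all points `x` of projective space over `L` and all sets `T` of indices `b` with
`φ_b(x, H(x)) ≠ 0`

`κ h(x) ≤ |Bad(x)| + 2 g(L) - 2 + C [L : F]`,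

if `κ + ∑_{b ∈ T} w_b / q_b + r + s + 1 ≤ ∑_{a ∈ B} (d_a + 1)` for all sets `B` of at least `|A| - f`
indices. Here `r` is (at least) the dimension of the closure of the point `x` over `F0`, `s` is the
dimension of the point given by `x` and the values of the `φ_b`, `b ∈ T`, `f` is the dimension of the
point `(x, H(x))` of `E` over the latter point; and `Bad(x)` is the set of the places of `L`, not over
`T0`, at which `x` is not a point of the C-pair: it meets one of the divisors `φ_b = 0`, `b ∈ T`, with a
positive multiplicity less than `q_b` (with a positive multiplicity, if `q_b` is infinity). So for the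
Campana points outside of the places over `T0` the inequality is
`κ h(x) ≤ 2 g(L) - 2 + C [L : F]`.

(2) Preimages of C-pairs. Let `Y` be a weighted cone over `F0` in the affine space with coordinates
`u_a`, `a ∈ A` (that is, a closed subset that is invariant under the action of the multiplicative
group with weights `d_a`; arbitrary dimension and singularities), and `g_b = 0`, `b ∈ Λ`, invariant
divisors on it, of weights `w_b`, with multiplicities `q_b`. Suppose that the map `(g_b)_b` on the part
of `Y` where all `g_b` are different from `0` has an image of dimension at most `j`, and fibres of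
dimension at most `f`. Then, for every closed subset `V` over `F0` of projective space, of dimension at
most `m`, the inequality `κ h(x) ≤ |Bad(x)| + 2 g(L) - 2 + C [L : F]` holds for all `x` in `V` over `L`
such that `H(x)` is in `Y` and not on `∪ {g_b = 0}`, if
`κ + ∑_b w_b / q_b + 2 m + j + 1 ≤ ∑_{a ∈ B} (d_a + 1)` for all `B` with `|B| ≥ |A| - f`. (`C` does not
depend on `V` and `Y`.) So, if this holds for some `κ > 0`, the height of the Campana points over `L`
of `X = V ∩ H⁻¹(Y)` with the boundary `∑ (1 - 1 / q_b) (g_b(H) = 0)` is bounded, with no exceptional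
set.
For example, let all `d_a` be equal to `d`, `H` a generic rational map from projective `n`-space to
projective `N`-space, `V` the whole space, and let the boundary be `(1 - 1 / q)` times the preimage of
an arbitrary hypersurface of degree `e` (`j = 1`, `f = N`, `w = d e`): the condition is
`d e / q + 2 n + 1 < d`, or `q > e` and `(1 - e / q) d > 2 n + 1`. Or let `H` be any forms, with
multiplicities `q_a` of the `H_a = 0`, and `Z₀` any closed subset of the torus, invariant under the
one-parameter group with the weights `d_a`, of codimension `c` (`j = |A| - c`, `f = 0`): for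
`V ∩ H⁻¹(Z₀)` the condition is `2 m + 1 < ∑ (1 - 1 / q_a) d_a + c`.

(3) Linear systems with base points. Let `B0` be the closed subset `G_a = 0`, `a ∈ A`, of projective
space, for forms `G_a` of degrees `g_a` over `F0`, and let `S_i = ∑_a G_a H_{i,a}`, for `i` in a finite
set `I`, be generic members of degrees `D_i` of the linear systems given by the `G_a`, that is, the
`H_{i,a}` have degrees `d_{i,a} = D_i - g_a`, and all their coefficients are algebraically independent
over `F0`. So the `S_i` are generic hypersurfaces that contain `B0`; let `q_i` be multiplicities. For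
all `x` of `V` over `L` that are not in the base locus `B0`, the inequality holds if
`κ ≤ (the sum of any |I| of the numbers d_{i,a}) + z - ∑ D_i / q_i - 2 m - 1`, where `z` is the number of
the `i` with `S_i(x) = 0`, the second sum is over the other `i`, and `Bad(x)` is the set of the places,
not over `T0`, at which `x` meets one of these `S_i = 0` with a positive multiplicity less than `q_i`.
In general, the points of the base locus do not satisfy the inequality.

The proof: there are derivations of `F` dual to the coefficients. They extend to `L`; the loss in the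
direction of the curve is bounded by the ramification, the loss in the other directions by a
multiple of `[L : F]`. The vectors of the derivatives of the coordinates of `x` and of the logarithmic
derivatives of the functions `φ_b(x, H(x))` have a nonzero minor, all poles of which outside of
finitely many places of `F` are simple and lie in the direction of the curve and over the points where
`x` meets the boundary; there are at most `(w_b h(x) + C [L : F]) / q_b` places at which `x` meets
`φ_b = 0` with multiplicity at least `q_b`.

Definitions of the library: `IsFF k F`: `F` is finitely generated and of transcendence degree one over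
`k`; `Place k L`: the points of the smooth projective curve with function field `L`; `under F P`: the
place of `F` below `P`; `pord P x`: the minimum of the orders at `P` of the coordinates; `pht k x`:
minus the sum of `pord P x` over all places, the height relative to `L`; `canDeg k L`: the degree
`2 g(L) - 2` of the canonical divisor; `coords F0 x`: the field generated over `F0` by the ratios of
the coordinates; `DimLE F0 V m`: the closed subset `V` of projective space has dimension at most `m`.
`CoordsB F0 x w T ψ` (`Pool/Agent/KS6_26/E/ZLog.lean`): the field generated over `F0` by the ratios of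
the coordinates and by the values `ψ_b / x_j ^ w_b`, `b ∈ T`. `BadT T w q x ψ`
(`Pool/Agent/KS6_26/N/Camp2.lean`): the places at which `x` is not a point of the C-pair given by the
`b ∈ T`, the values `ψ_b` of the equations, their degrees `w_b` and the multiplicities `q_b`.
-/

set_option autoImplicit false

namespace Pool.Agent.Results.MP_464c42_nt.PreimagesOfCPairs

open FF MvPolynomial Pool.Agent.W603.LV Pool.Agent.W603.PV
open Pool.Agent.W602.GT (coords)
open Pool.Agent.TH145.MG (DimLE)
open Pool.Agent.KS6_26.E (CoordsB)
open Pool.Agent.KS6_26.N (BadT)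

/-- The forms `H a` have degrees `d a`, and their coefficients are algebraically independent over
`F0`, for all `a` together. -/
def Generic (F0 : Type) {F A : Type} [Field F0] [Field F] [Algebra F0 F] {n : ℕ} (d : A → ℕ)
    (H : A → MvPolynomial (Fin (n + 1)) F) : Prop :=
  (∀ a, (H a).IsHomogeneous (d a)) ∧ AlgebraicIndependent F0
    fun p : {p : A × (Fin (n + 1) →₀ ℕ) // p.2.degree = d p.1} => (H p.1.1).coeff p.1.2

/-- The field `F0(g(v))` generated over `F0` by the values of the `g b` at the point `v`. -/
def Val (F0 : Type) {Ω A Λ : Type} [Field F0] [Field Ω] [Algebra F0 Ω]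
    (g : Λ → MvPolynomial A F0) (v : A → Ω) : IntermediateField F0 Ω :=
  IntermediateField.adjoin F0 (Set.range fun b => aeval v (g b))

/-- The map given by the `g b` on the part of `Y` where they are all different from `0` has an image
of dimension at most `j`, and fibres of dimension at most `f`: for all points `v` of `Y` with
`g b ≠ 0` at `v`, the transcendence degree of `F0(g(v))` over `F0` is at most `j`, and that of
`F0(g(v), v)` over `F0(g(v))` is at most `f`. -/
def MapDim {F0 A Λ : Type} [Field F0] (Y : Set (MvPolynomial A F0)) (g : Λ → MvPolynomial A F0)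
    (j f : ℕ) : Prop :=
  ∀ (Ω : Type) [Field Ω] [Algebra F0 Ω] (v : A → Ω), (∀ p ∈ Y, aeval v p = 0) →
    (∀ b, aeval v (g b) ≠ 0) → Algebra.trdeg F0 (Val F0 g v) ≤ j ∧
    Algebra.trdeg (Val F0 g v) (IntermediateField.adjoin (Val F0 g v) (Set.range v)) ≤ f

/-- The inequality `κ h(x) ≤ |{P ∈ W, P not over T0}| + 2 g(L) - 2 + C [L : F]`. -/
def Ineq {k F L : Type} [Field k] [Field F] [Field L] [Algebra k F] [Algebra k L] [Algebra F L]
    [IsScalarTower k F L] [IsAlgClosed k] [CharZero k] [IsFF k F] [IsFF k L] {n : ℕ} (κ : ℚ)
    (x : Fin (n + 1) → L) (W : Set (Place k L)) (T0 : Set (Place k F)) (C : ℕ) : Prop :=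
  κ * (pht k x : ℚ) ≤ ({P | P ∈ W ∧ under F P ∉ T0}.ncard : ℚ) + canDeg k L +
    C * Module.finrank F L

section parts

variable (k F0 F : Type) [Field k] [Field F0] [Field F] [Algebra k F] [Algebra F0 F]
  [IsAlgClosed k] [CharZero k] [IsFF k F] (n : ℕ) (A : Type) [Fintype A]

/-- Part (1), the general inequality. -/
def General : Prop :=
  ∀ (d : A → ℕ) (H : A → MvPolynomial (Fin (n + 1)) F), Generic F0 d H →
    ∀ (Λ : Type) [Fintype Λ] (φ : Λ → MvPolynomial (Fin (n + 1) ⊕ A) F0) (w : Λ → ℕ),
    (∀ b, IsWeightedHomogeneous (Sum.elim (fun _ => 1) d) (φ b) (w b)) →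
    ∀ (q : Λ → ℕ) (T0 : Set (Place k F)), T0.Finite →
    ∃ C : ℕ, ∀ (L : Type) [Field L] [Algebra k L] [Algebra F L] [Algebra F0 L]
      [IsScalarTower k F L] [IsScalarTower F0 F L] [FiniteDimensional F L] [IsFF k L]
      (x : Fin (n + 1) → L) (u : A → L) (ψ : Λ → L), x ≠ 0 → (∀ a, u a = aeval x (H a)) →
      (∀ b, ψ b = aeval (Sum.elim x u) (φ b)) → ∀ (T : Finset Λ) (r s f : ℕ) (κ : ℚ),
      (∀ b ∈ T, ψ b ≠ 0) → Algebra.trdeg F0 (coords F0 x) ≤ r →
      Algebra.trdeg F0 (CoordsB F0 x w T ψ) ≤ s →
      Algebra.trdeg (CoordsB F0 x w T ψ) (IntermediateField.adjoin (CoordsB F0 x w T ψ)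
        {z | ∃ a j, x j ≠ 0 ∧ z = u a / x j ^ d a}) ≤ f →
      (∀ B : Finset A, Fintype.card A ≤ B.card + f →
        κ + ∑ b ∈ T, (w b / q b : ℚ) + r + s + 1 ≤ ∑ a ∈ B, ((d a : ℚ) + 1)) →
      (BadT (k := k) T w q x ψ).Finite ∧ Ineq κ x (BadT (k := k) T w q x ψ) T0 C

/-- Part (2), the preimages of C-pairs. -/
def Preimages : Prop :=
  ∀ (d : A → ℕ) (H : A → MvPolynomial (Fin (n + 1)) F), Generic F0 d H →
    ∀ (Λ : Type) [Fintype Λ] (g : Λ → MvPolynomial A F0) (w : Λ → ℕ),
    (∀ b, IsWeightedHomogeneous d (g b) (w b)) →
    ∀ (q : Λ → ℕ) (T0 : Set (Place k F)), T0.Finite →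
    ∃ C : ℕ, ∀ (V : Set (MvPolynomial (Fin (n + 1)) F0)) (m : ℕ), DimLE F0 V m →
      ∀ (Y : Set (MvPolynomial A F0)) (j f : ℕ), (∀ p ∈ Y, ∃ e, IsWeightedHomogeneous d p e) →
      MapDim Y g j f → ∀ κ : ℚ, (∀ B : Finset A, Fintype.card A ≤ B.card + f →
        κ + ∑ b, (w b / q b : ℚ) + 2 * m + j + 1 ≤ ∑ a ∈ B, ((d a : ℚ) + 1)) →
      ∀ (L : Type) [Field L] [Algebra k L] [Algebra F L] [Algebra F0 L]
        [IsScalarTower k F L] [IsScalarTower F0 F L] [FiniteDimensional F L] [IsFF k L]
        (x : Fin (n + 1) → L) (u : A → L) (ψ : Λ → L), x ≠ 0 → (∀ p ∈ V, aeval x p = 0) →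
      (∀ a, u a = aeval x (H a)) → (∀ p ∈ Y, aeval u p = 0) → (∀ b, ψ b = aeval u (g b)) →
      (∀ b, ψ b ≠ 0) →
      (BadT (k := k) Finset.univ w q x ψ).Finite ∧
        Ineq κ x (BadT (k := k) Finset.univ w q x ψ) T0 C

/-- Part (3), the generic members of linear systems with base points. -/
def BasePoints : Prop :=
  ∀ (I : Type) [Fintype I] (d : I × A → ℕ) (G : A → MvPolynomial (Fin (n + 1)) F0) (g : A → ℕ),
    (∀ a, (G a).IsHomogeneous (g a)) → ∀ D : I → ℕ, (∀ i a, d (i, a) + g a = D i) →
    ∀ H : I × A → MvPolynomial (Fin (n + 1)) F, Generic F0 d H →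
    ∀ (q : I → ℕ) (T0 : Set (Place k F)), T0.Finite →
    ∃ C : ℕ, ∀ (V : Set (MvPolynomial (Fin (n + 1)) F0)) (m : ℕ), DimLE F0 V m →
      ∀ (L : Type) [Field L] [Algebra k L] [Algebra F L] [Algebra F0 L]
        [IsScalarTower k F L] [IsScalarTower F0 F L] [FiniteDimensional F L] [IsFF k L]
        (x : Fin (n + 1) → L) (ψ : I → L) (T : Finset I), x ≠ 0 → (∀ p ∈ V, aeval x p = 0) →
      (∃ a, aeval x (G a) ≠ 0) → (∀ i, ψ i = ∑ a, aeval x (G a) * aeval x (H (i, a))) →
      (∀ i, i ∈ T ↔ ψ i ≠ 0) →
      ∀ κ : ℚ, (∀ B : Finset (I × A), B.card = Fintype.card I →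
        κ + ∑ i ∈ T, (D i / q i : ℚ) + 2 * m + T.card + 1 ≤
          ∑ p ∈ B, (d p : ℚ) + Fintype.card I) →
      (BadT (k := k) T D q x ψ).Finite ∧ Ineq κ x (BadT (k := k) T D q x ψ) T0 C

end parts

theorem result {k0 k F0 F : Type} [Field k0] [Field k] [Field F0] [Field F] [IsAlgClosed k]
    [CharZero k] [Algebra k0 k] [Algebra k F] [Algebra k0 F] [IsScalarTower k0 k F]
    [Algebra k0 F0] [Algebra F0 F] [IsScalarTower k0 F0 F]
    -- `F` is a function field of one variable over `k`, `F0` is finitely generated over `k0`
    [IsFF k F] (hfg : ∃ S : Finset F0, IntermediateField.adjoin k0 (S : Set F0) = ⊤) (n : ℕ)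
    (A : Type) [Fintype A] :
    General k F0 F n A ∧ Preimages k F0 F n A ∧ BasePoints k F0 F n A := by
  refine ⟨fun d H hH Λ _ φ w hφ q T0 hT0 => ?_, fun d H hH Λ _ g w hg q T0 hT0 => ?_,
    fun I _ d G g hG D hD H hH q T0 hT0 => ?_⟩
  · obtain ⟨C, hC⟩ := Pool.Agent.KS6_26.N.zorb_main (k0 := k0) (k := k) hfg d H hH.1 hH.2 φ w hφ q
    obtain ⟨C1, hC1⟩ := Pool.Agent.KS6_26.N.drop_places (k := k) hT0
    refine ⟨C + C1, ?_⟩
    intro L _ _ _ _ _ _ _ _ x u ψ hx hu hψ T r s f κ hT hr hs hf hκ
    obtain ⟨h1, h2⟩ := hC L x u ψ hx hu hψ T r s f κ hT hr hs hf hκ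
    have h3 := hC1 L _ h1
    refine ⟨h1, ?_⟩
    unfold Ineq
    push_cast
    linarith
  · obtain ⟨C, hC⟩ := Pool.Agent.KS6_26.N.zorb_prod (k0 := k0) (k := k) hfg d H hH.1 hH.2 g w hg q
    obtain ⟨C1, hC1⟩ := Pool.Agent.KS6_26.N.drop_places (k := k) hT0
    refine ⟨C + C1, ?_⟩
    intro V m hV Y j f hYh hY κ hκ L _ _ _ _ _ _ _ _ x u ψ hx hxV hu hxY hψ hxg
    obtain rfl : u = fun a => aeval x (H a) := funext hu
    obtain rfl : ψ = fun b => aeval (fun a => aeval x (H a)) (g b) := funext hψ
    obtain ⟨h1, h2⟩ := hC V m hV Y j f hYh hY κ hκ L x hx hxV hxY hxg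
    have h3 := hC1 L _ h1
    refine ⟨h1, ?_⟩
    unfold Ineq
    push_cast
    linarith
  · obtain ⟨C, hC⟩ := Pool.Agent.KS6_26.N.zorb_base (k0 := k0) (k := k) hfg hG hD H hH.1 hH.2 q
    obtain ⟨C1, hC1⟩ := Pool.Agent.KS6_26.N.drop_places (k := k) hT0
    refine ⟨C + C1, ?_⟩
    intro V m hV L _ _ _ _ _ _ _ _ x ψ T hx hxV hxG hψ hT κ hκ
    obtain ⟨h1, h2⟩ := hC V m hV L x ψ T hx hxV hxG hψ hT κ hκ
    have h3 := hC1 L _ h1
    refine ⟨h1, ?_⟩
    unfold Ineq
    push_cast
    linarith

end Pool.Agent.Results.MP_464c42_nt.PreimagesOfCPairs
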